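import Pool.Agent.Lib.K5.Final

set_option autoImplicit false

/-!
# MP_512cdd_co: the growth constant of the graphs without a `K_5` minor, `27.79 ≤ γ ≤ 27.80`

`P512.numG n` is the number of labelled graphs on `n` vertices without a `K_5` minor, `P512.numC n`
the number of connected ones.  `(numG n / n!)^(1/n)` and `(numC n / n!)^(1/n)` tend to the same
number `γ`, and `27.79 ≤ γ ≤ 27.80`.
-/

namespace Pool.Agent.Results.MP_512cdd_co.GrowthConstant

open Filter Topology P512

theorem result : ∃ γ : ℝ,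
    Tendsto (fun n : ℕ => ((numG n : ℝ) / n.factorial) ^ (1 / (n : ℝ))) atTop (𝓝 γ) ∧
    Tendsto (fun n : ℕ => ((numC n : ℝ) / n.factorial) ^ (1 / (n : ℝ))) atTop (𝓝 γ) ∧
    2779 / 100 ≤ γ ∧ γ ≤ 278 / 10 := by
  obtain ⟨γ, -, -, hg, hc, -⟩ := P512.main
  have hg' : Tendsto (fun n : ℕ => ((P512.g n : ℝ) / n.factorial) ^ (1 / (n : ℝ))) atTop (𝓝 γ) := by
    simpa only [numG_eq] using hg
  exact ⟨γ, hg, hc, K5.growth hg'⟩

end Pool.Agent.Results.MP_512cdd_co.GrowthConstant
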